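import Pool.Agent.Lib.MP_0dd31c_co.Core

set_option autoImplicit false

namespace Pool.Agent.Results.MP_0dd31c_co.ExplicitDegree

open Finset Filter Topology

/-- The vertex set of the hypergraph `F`: the union of its hyperedges. -/
def verts {α : Type} [DecidableEq α] (F : Finset (Finset α)) : Finset α := F.biUnion id

/-- `F` is `n`-uniform. -/
def IsUniform {α : Type} (n : ℕ) (F : Finset (Finset α)) : Prop := ∀ A ∈ F, A.card = n

/-- The number of hyperedges containing `v`. -/
def degree {α : Type} [DecidableEq α] (F : Finset (Finset α)) (v : α) : ℕ :=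
  (F.filter (fun A => v ∈ A)).card

/-- The largest degree of a vertex. -/
def maxDegree {α : Type} [DecidableEq α] (F : Finset (Finset α)) : ℕ :=
  (verts F).sup (degree F)

/-- Red class `R`, blue class `B`: a 2-colouring of all the vertices, with classes of sizes
`⌊|V|/2⌋` and `⌈|V|/2⌉`, and no hyperedge is monochromatic. -/
def IsProperHalving {α : Type} [DecidableEq α] (F : Finset (Finset α)) (R B : Finset α) : Prop :=
  Disjoint R B ∧ R ∪ B = verts F ∧ R.card = (verts F).card / 2 ∧
    B.card = ((verts F).card + 1) / 2 ∧ ∀ A ∈ F, ¬ A ⊆ R ∧ ¬ A ⊆ B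

theorem degree_le {α : Type} [DecidableEq α] (F : Finset (Finset α)) (v : α) :
    degree F v ≤ maxDegree F := by
  by_cases hv : v ∈ verts F
  · exact Finset.le_sup (f := degree F) hv
  · have : degree F v = 0 := by
      unfold degree
      rw [card_eq_zero, filter_eq_empty_iff]
      intro A hA hvA
      exact hv (mem_biUnion.2 ⟨A, hA, hvA⟩)
    omega

/-- Transport to the vertex type `ℕ`. -/
theorem main {α : Type} [DecidableEq α] (F : Finset (Finset α)) (n : ℕ) (D : ℝ) (hn : 4 ≤ n)
    (hF : IsUniform n F) (hdeg : (maxDegree F : ℝ) ≤ D) (hD : 64 * (n : ℝ) * D ≤ 2 ^ n) :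
    ∃ R B : Finset α, IsProperHalving F R B := by
  classical
  obtain ⟨g, hg⟩ : ∃ g : α → ℕ, Set.InjOn g (verts F) := by
    refine ⟨fun v => if h : v ∈ verts F then ((verts F).equivFin ⟨v, h⟩ : ℕ) else 0, ?_⟩
    intro v hv w hw hvw
    have hv' : v ∈ verts F := hv
    have hw' : w ∈ verts F := hw
    simp only [hv', hw', dif_pos] at hvw
    have h1 := (verts F).equivFin.injective (Fin.ext hvw)
    exact congrArg Subtype.val h1
  have hsub : ∀ A ∈ F, A ⊆ verts F := fun A hA => subset_biUnion_of_mem id hA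
  set F' : Finset (Finset ℕ) := F.image (fun A => A.image g) with hF'
  have hV' : F'.biUnion id = (verts F).image g := by
    ext w
    simp only [hF', mem_biUnion, mem_image, id, verts]
    constructor
    · rintro ⟨A', ⟨A, hA, rfl⟩, hw⟩
      obtain ⟨v, hv, rfl⟩ := mem_image.1 hw
      exact ⟨v, ⟨A, hA, hv⟩, rfl⟩
    · rintro ⟨v, ⟨A, hA, hv⟩, rfl⟩
      exact ⟨_, ⟨A, hA, rfl⟩, mem_image_of_mem g hv⟩
  have hcardV : (F'.biUnion id).card = (verts F).card := by
    rw [hV', card_image_of_injOn hg]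
  have hunif : ∀ A' ∈ F', A'.card = n := by
    intro A' hA'
    obtain ⟨A, hA, rfl⟩ := mem_image.1 hA'
    rw [card_image_of_injOn (hg.mono (by exact_mod_cast hsub A hA))]
    exact hF A hA
  have hmemg : ∀ A ∈ F, ∀ v ∈ verts F, (g v ∈ A.image g ↔ v ∈ A) := by
    intro A hA v hv
    constructor
    · intro h
      obtain ⟨u, hu, huv⟩ := mem_image.1 h
      have := hg (hsub A hA hu) hv huv
      rwa [← this]
    · exact mem_image_of_mem g
  have hdeg' : ∀ w : ℕ, ((F'.filter (fun A => w ∈ A)).card : ℝ) ≤ D := by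
    intro w
    refine le_trans ?_ hdeg
    have : (F'.filter (fun A => w ∈ A)).card ≤ maxDegree F := by
      by_cases hw : w ∈ (verts F).image g
      · obtain ⟨v, hv, rfl⟩ := mem_image.1 hw
        refine le_trans ?_ (degree_le F v)
        unfold degree
        refine le_trans (card_le_card ?_) (card_image_le (s := F.filter (fun A => v ∈ A))
          (f := fun A => A.image g))
        intro A' hA'
        obtain ⟨h1, h2⟩ := mem_filter.1 hA'
        obtain ⟨A, hA, rfl⟩ := mem_image.1 h1
        exact mem_image.2 ⟨A, mem_filter.2 ⟨hA, (hmemg A hA v hv).1 h2⟩, rfl⟩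
      · have : F'.filter (fun A => w ∈ A) = ∅ := by
          rw [filter_eq_empty_iff]
          intro A' hA' hwA'
          apply hw
          rw [← hV']
          exact mem_biUnion.2 ⟨A', hA', hwA'⟩
        rw [this]
        simp
    exact_mod_cast this
  have hD' : 4 * (4 / (2 : ℝ) ^ n) * (4 * n * D) ≤ 1 := by
    have hpos : (0 : ℝ) < 2 ^ n := by positivity
    have : 4 * (4 / (2 : ℝ) ^ n) * (4 * n * D) = (64 * n * D) / 2 ^ n := by
      field_simp
      ring
    rw [this, div_le_one hpos]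
    exact hD
  obtain ⟨R', hR'V, hR'c, hR'p⟩ :=
    Pool.Agent.Lib.MP_0dd31c_co.Core.core F' n D hunif hdeg' hn hD'
  set R : Finset α := (verts F).filter (fun v => g v ∈ R') with hR
  have hRc : R.card = R'.card := by
    have : R.image g = R' := by
      ext w
      constructor
      · intro hw
        obtain ⟨v, hv, rfl⟩ := mem_image.1 hw
        exact (mem_filter.1 hv).2
      · intro hw
        have := hR'V hw
        rw [hV'] at this
        obtain ⟨v, hv, rfl⟩ := mem_image.1 this
        exact mem_image_of_mem g (mem_filter.2 ⟨hv, hw⟩)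
    rw [← this, card_image_of_injOn (hg.mono (by exact_mod_cast filter_subset _ _))]
  have hRV : R ⊆ verts F := filter_subset _ _
  refine ⟨R, verts F \ R, disjoint_sdiff, by rw [union_sdiff_of_subset hRV], ?_, ?_, ?_⟩
  · rw [hRc, hR'c, hcardV]
  · rw [card_sdiff_of_subset hRV, hRc, hR'c, hcardV]
    omega
  · intro A hA
    obtain ⟨h1, h2⟩ := hR'p (A.image g) (mem_image_of_mem _ hA)
    constructor
    · intro hAR
      apply h2
      intro w hw
      obtain ⟨v, hv, rfl⟩ := mem_image.1 hw
      exact (mem_filter.1 (hAR hv)).2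
    · intro hAB
      obtain ⟨w, hw⟩ := h1
      obtain ⟨hw1, hw2⟩ := mem_inter.1 hw
      obtain ⟨v, hv, rfl⟩ := mem_image.1 hw1
      have := mem_sdiff.1 (hAB hv)
      exact this.2 (mem_filter.2 ⟨this.1, hw2⟩)

theorem root_bound (n : ℕ) (hn : 1 ≤ n) :
    (2 - (2 - ((2 : ℝ) ^ n / (64 * n)) ^ (1 / (n : ℝ)))) ^ n = 2 ^ n / (64 * n) := by
  have hpos : (0 : ℝ) ≤ 2 ^ n / (64 * n) := by positivity
  have h1 : (2 - (2 - ((2 : ℝ) ^ n / (64 * n)) ^ (1 / (n : ℝ)))) =
      ((2 : ℝ) ^ n / (64 * n)) ^ (1 / (n : ℝ)) := by ring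
  rw [h1, ← Real.rpow_natCast, ← Real.rpow_mul hpos]
  have hn0 : (n : ℝ) ≠ 0 := by
    have : (0 : ℝ) < n := by exact_mod_cast hn
    exact this.ne'
  rw [one_div, inv_mul_cancel₀ hn0, Real.rpow_one]

theorem tendsto_root : Tendsto (fun n : ℕ => 2 - ((2 : ℝ) ^ n / (64 * n)) ^ (1 / (n : ℝ)))
    atTop (𝓝 0) := by
  have h1 : Tendsto (fun x : ℝ => x ^ (1 / x)) atTop (𝓝 1) := tendsto_rpow_div
  have h2 : Tendsto (fun n : ℕ => (n : ℝ) ^ (1 / (n : ℝ))) atTop (𝓝 1) :=
    h1.comp tendsto_natCast_atTop_atTop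
  have h3 : Tendsto (fun n : ℕ => (64 : ℝ) ^ (1 / (n : ℝ))) atTop (𝓝 1) := by
    have h4 : Tendsto (fun n : ℕ => (1 / (n : ℝ))) atTop (𝓝 0) := tendsto_one_div_atTop_nhds_zero_nat
    have h5 : ContinuousAt (fun x : ℝ => (64 : ℝ) ^ x) 0 :=
      Real.continuousAt_const_rpow (by norm_num)
    have h8 := h5.tendsto.comp h4
    rw [Real.rpow_zero] at h8
    exact h8
  have h6 : Tendsto (fun n : ℕ => 2 - 2 / ((64 : ℝ) ^ (1 / (n : ℝ)) * (n : ℝ) ^ (1 / (n : ℝ))))
      atTop (𝓝 (2 - 2 / (1 * 1))) :=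
    tendsto_const_nhds.sub (tendsto_const_nhds.div (h3.mul h2) (by norm_num))
  have h7 : (2 : ℝ) - 2 / (1 * 1) = 0 := by norm_num
  rw [h7] at h6
  refine h6.congr' ?_
  filter_upwards [eventually_ge_atTop 1] with n hn
  have hn0 : (0 : ℝ) < n := by exact_mod_cast hn
  rw [Real.div_rpow (by positivity) (by positivity), Real.mul_rpow (by norm_num) hn0.le]
  have : ((2 : ℝ) ^ n) ^ (1 / (n : ℝ)) = 2 := by
    rw [← Real.rpow_natCast, ← Real.rpow_mul (by norm_num), mul_one_div, div_self hn0.ne',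
      Real.rpow_one]
  rw [this]

/-- **Answer to Q1.** (1) An explicit bound: for `n ≥ 4` every `n`-uniform finite hypergraph (on any
vertex type) whose maximum degree is at most `2 ^ n / (64 n)` has a proper halving 2-colouring.
(2) For every real `c` with `1 < c < 2`, maximum degree at most `c ^ n` is enough for all large `n`.
(3) There is `ε n → 0` such that for all `n ≥ 1` maximum degree at most `(2 - ε n) ^ n` is enough. -/
theorem result :
    (∀ (n : ℕ) (α : Type) [DecidableEq α] (F : Finset (Finset α)), 4 ≤ n → IsUniform n F →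
      (maxDegree F : ℝ) ≤ 2 ^ n / (64 * n) → ∃ R B : Finset α, IsProperHalving F R B) ∧
    (∀ c : ℝ, 1 < c → c < 2 → ∃ n₀ : ℕ, ∀ n : ℕ, n₀ ≤ n →
      ∀ (α : Type) [DecidableEq α] (F : Finset (Finset α)), IsUniform n F →
      (maxDegree F : ℝ) ≤ c ^ n → ∃ R B : Finset α, IsProperHalving F R B) ∧
    (∃ ε : ℕ → ℝ, Tendsto ε atTop (𝓝 0) ∧ ∀ n : ℕ, 1 ≤ n →
      ∀ (α : Type) [DecidableEq α] (F : Finset (Finset α)), IsUniform n F →
      (maxDegree F : ℝ) ≤ (2 - ε n) ^ n → ∃ R B : Finset α, IsProperHalving F R B) := by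
  have part1 : ∀ (n : ℕ) (α : Type) [DecidableEq α] (F : Finset (Finset α)), 4 ≤ n →
      IsUniform n F → (maxDegree F : ℝ) ≤ 2 ^ n / (64 * n) →
      ∃ R B : Finset α, IsProperHalving F R B := by
    intro n α _ F hn hF hdeg
    have hn0 : (0 : ℝ) < n := by
      have : 0 < n := by omega
      exact_mod_cast this
    refine main F n (2 ^ n / (64 * n)) hn hF hdeg ?_
    rw [mul_div_assoc', div_le_iff₀ (by positivity)]
    nlinarith
  refine ⟨part1, ?_, ?_⟩
  · intro c hc1 hc2
    have hr0 : 0 ≤ c / 2 := by linarith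
    have hr1 : c / 2 < 1 := by linarith
    have htend := tendsto_self_mul_const_pow_of_lt_one hr0 hr1
    have hev : ∀ᶠ n : ℕ in Filter.atTop, (n : ℝ) * (c / 2) ^ n < 1 / 64 :=
      htend.eventually (gt_mem_nhds (by norm_num))
    obtain ⟨n₁, hn₁⟩ := Filter.eventually_atTop.1 hev
    refine ⟨max n₁ 4, ?_⟩
    intro n hn α _ F hF hdeg
    have hn4 : 4 ≤ n := (le_max_right _ _).trans hn
    have h1 := hn₁ n ((le_max_left _ _).trans hn)
    refine part1 n α F hn4 hF (hdeg.trans ?_)
    have hn0 : (0 : ℝ) < n := by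
      have : 0 < n := by omega
      exact_mod_cast this
    have hpos : (0 : ℝ) < 2 ^ n := by positivity
    rw [div_pow, mul_div_assoc', div_lt_div_iff₀ hpos (by norm_num)] at h1
    rw [le_div_iff₀ (by positivity)]
    nlinarith
  · refine ⟨fun n => if n < 4 then 2 else 2 - ((2 : ℝ) ^ n / (64 * n)) ^ (1 / (n : ℝ)), ?_, ?_⟩
    · refine tendsto_root.congr' ?_
      filter_upwards [eventually_ge_atTop 4] with n hn
      rw [if_neg (by omega)]
    · intro n hn α _ F hF hdeg
      simp only at hdeg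
      by_cases hn4 : n < 4
      · rw [if_pos hn4] at hdeg
        have h0 : (maxDegree F : ℝ) ≤ 0 := by
          have : ((2 : ℝ) - 2) ^ n = 0 := by
            rw [sub_self, zero_pow (by omega)]
          rwa [this] at hdeg
        have h0' : maxDegree F = 0 := by exact_mod_cast le_antisymm h0 (Nat.cast_nonneg _)
        have hFe : F = ∅ := by
          by_contra hne
          obtain ⟨A, hA⟩ := Finset.nonempty_iff_ne_empty.2 hne
          have hAn := hF A hA
          obtain ⟨v, hv⟩ := Finset.card_pos.1 (by omega : 0 < A.card)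
          have h2 := degree_le F v
          have h3 : 0 < degree F v := Finset.card_pos.2 ⟨A, mem_filter.2 ⟨hA, hv⟩⟩
          omega
        subst hFe
        refine ⟨∅, ∅, ?_⟩
        simp [IsProperHalving, verts]
      · rw [if_neg hn4, root_bound n hn] at hdeg
        exact part1 n α F (by omega) hF hdeg

end Pool.Agent.Results.MP_0dd31c_co.ExplicitDegree
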